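import Pool.Agent.R483.CC.Main

set_option autoImplicit false

/-!
# Vertices of operator convex corners give facets of the anti-blocker

`Herm n` is the real vector space of Hermitian `n × n` complex matrices, `pairing X Y = Tr (X Y)`.
The definitions `IsConvexCorner`, `antiBlocker`, `Supports`, `IsVertex`, `IsFacet` of
`Pool/Agent/R483/CC/Main.lean` follow the problem file.

Idea of the proof. Let `X = L Lᴴ` with `L` of full column rank be a nonzero vertex of `C` and let
`Y` be in the normal cone `N` of `C` at `X`. Since `C` is hereditary, `T = Lᴴ Y L` is positive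
semidefinite. If it is positive definite put `K = L T⁻¹ Lᴴ Y` and `Z = Y K = Y L T⁻¹ Lᴴ Y ≥ 0`.
For `A ∈ C` and small `s` the matrix
`(1 - s) X + s (A - (c / (1 + c)) (1 - K) A (1 - K)ᴴ)` is positive semidefinite and below
`(1 - s) X + s A ∈ C`, so it is in `C`, and comparing its pairing with `Y` with that of `X` gives,
as `c → ∞`, `Tr (A Z) ≤ Tr (X Y) = Tr (X Z)`: so `Z ∈ N`. As `X` is a vertex, `N` spans `Herm n`.
Hence the sum of finitely many such `Z` is a positive definite element `Z₀` of `N`, and
`Z₀ + ε Y` is in `N` and positive semidefinite for every `Y ∈ N` and small `ε`. After scaling these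
matrices lie in `{Z ∈ antiBlocker C | Tr (X Z) = 1}`, whose affine hull is therefore the whole
hyperplane `{Z | Tr (X Z) = 1}`.
-/

namespace Pool.Agent.Results.MP_59e64e_co.VertexFacet

open Pool.Agent.R483.CC

/-- For every `n ≥ 1`, every convex corner `C` of positive semidefinite `n × n` matrices and every
nonzero vertex `X` of `C`, the set `{Z ∈ antiBlocker C | Tr (X Z) = 1}` is a facet of the
anti-blocker of `C`. -/
theorem result : ∀ n : ℕ, 1 ≤ n → ∀ C : Set (Herm n), IsConvexCorner C →
    ∀ X : Herm n, IsVertex C X → X ≠ 0 →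
      IsFacet (antiBlocker C) {Z | Z ∈ antiBlocker C ∧ pairing X Z = 1} :=
  fun _ _ _ hC _ hX hX0 => facet_of_vertex hC hX hX0

end Pool.Agent.Results.MP_59e64e_co.VertexFacet
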